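import Pool.Agent.U541.JT.Fin

/-!
# Non-separable subspaces of the dual of the James tree space contain its predual

Answer to Q2: yes. Every non-separable closed subspace of `JT*` has a closed subspace isomorphic to
the predual of `JT`, the closed linear span of the functionals biorthogonal to the unit vectors.

`Tree` is the set of finite 0-1 sequences (`List Bool`), ordered by extension, and `Pre Tree` is the
space of finitely supported functions `x : Tree → ℝ` with the norm
`sup (∑_{S ∈ P} (∑_{i ∈ S} x i)²)^(1/2)`, the supremum over the finite families `P` of pairwise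
disjoint segments (`Pool.Agent.R277.JT.Def`); `ev α` is the unit vector at the node `α`.
-/

set_option autoImplicit false

namespace Pool.Agent.Results.MP_245e03_an.NonseparableContainsPredual

open Pool.Agent.R277.JT UniformSpace

/-- The James tree space: the completion of the finitely supported functions on the dyadic tree. -/
def JT : Type := Completion (Pre Tree)

noncomputable instance : NormedAddCommGroup JT :=
  Completion.instNormedAddCommGroup (Pre Tree)

noncomputable instance : NormedSpace ℝ JT :=
  Completion.instNormedSpace ℝ (Pre Tree)

/-- The dual of a normed space, with the dual norm. -/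
def Dual (E : Type*) [NormedAddCommGroup E] [NormedSpace ℝ E] : Type _ := StrongDual ℝ E

section dual

variable {E : Type*} [NormedAddCommGroup E] [NormedSpace ℝ E]

noncomputable instance : NormedAddCommGroup (Dual E) := ContinuousLinearMap.toNormedAddCommGroup

noncomputable instance : NormedSpace ℝ (Dual E) := ContinuousLinearMap.toNormedSpace

/-- The value of a functional. -/
def Dual.ap (f : Dual E) (x : E) : ℝ := (show StrongDual ℝ E from f) x

end dual

/-- The unit vector of `JT` at the node `α`. -/
noncomputable def e (α : Tree) : JT := ((ev α : Pre Tree) : Completion (Pre Tree))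

open Classical in
/-- The set of the functionals `e_α*` biorthogonal to the unit vectors: `e_α* (e_β) = 1` if `β = α`
and `0` otherwise. -/
def Biorth : Set (Dual JT) := {f | ∃ α : Tree, ∀ β : Tree, f.ap (e β) = if β = α then 1 else 0}

/-- The space `𝓑`: the closed linear span in `JT*` of the functionals biorthogonal to the unit
vectors. -/
noncomputable def B : Submodule ℝ (Dual JT) := (Submodule.span ℝ Biorth).topologicalClosure

open Classical in
/-- The functional `e_α*` exists. -/
lemma exists_biorth (α : Tree) : ∃ f : Dual JT, ∀ β : Tree, f.ap (e β) = if β = α then 1 else 0 := by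
  obtain ⟨f, hf⟩ := rho_surjective (Pre Tree) (Pool.Agent.U541.JT.cd α)
  refine ⟨f, fun β => ?_⟩
  have h1 : rho (Pre Tree) f (ev β) = Dual.ap (E := JT) f (e β) := rfl
  rw [← h1, hf, Pool.Agent.U541.JT.cd_apply, val_ev]

/-- `E` contains `F`: some closed subspace of `E` is isomorphic to `F`. -/
def Contains (E F : Type*) [NormedAddCommGroup E] [NormedSpace ℝ E] [NormedAddCommGroup F]
    [NormedSpace ℝ F] : Prop :=
  ∃ Z : Submodule ℝ E, IsClosed (Z : Set E) ∧ Nonempty (Z ≃L[ℝ] F)

/-- Q2: every non-separable closed subspace `Y` of `JT*` contains `𝓑`. -/
theorem result (Y : Submodule ℝ (Dual JT)) (hYc : IsClosed (Y : Set (Dual JT)))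
    (hY : ¬ TopologicalSpace.SeparableSpace Y) : Contains Y B := by
  classical
  refine Pool.Agent.U541.JT.main' Biorth ?_ Y hYc hY
  rintro f ⟨α, hf⟩
  refine ⟨α, ?_⟩
  apply D_ext
  intro β
  rw [Pool.Agent.U541.JT.cd_apply, val_ev]
  exact hf β

end Pool.Agent.Results.MP_245e03_an.NonseparableContainsPredual
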